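import Mathlib

set_option autoImplicit false

open MeasureTheory ProbabilityTheory
open scoped Pointwise

namespace Pool.Agent.Results.MP_4442a2_an.EveryCodimension

/-- The `α`-Riesz capacity of a set of `ℝ^N`: the inverse of the infimum of the energies
`∬ |x - y|^{α - N} dμ(x) dμ(y)` over the Borel probability measures `μ` carried by `K`. -/
noncomputable def rieszCap (N : ℕ) (α : ℝ) (K : Set (EuclideanSpace ℝ (Fin N))) : ENNReal :=
  (⨅ (μ : Measure (EuclideanSpace ℝ (Fin N))) (_ : IsProbabilityMeasure μ) (_ : μ Kᶜ = 0),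
    ∫⁻ x, ∫⁻ y, (ENNReal.ofReal ‖x - y‖) ^ (α - N) ∂μ ∂μ)⁻¹

/-- A convex body: compact, convex, with nonempty interior. -/
def IsBody {N : ℕ} (K : Set (EuclideanSpace ℝ (Fin N))) : Prop :=
  IsCompact K ∧ Convex ℝ K ∧ (interior K).Nonempty

/-- The box `[0, u 0] × ⋯ × [0, u (N-1)]`. -/
def box {N : ℕ} (u : Fin N → ℝ) : Set (EuclideanSpace ℝ (Fin N)) :=
  {x | ∀ i, 0 ≤ x i ∧ x i ≤ u i}

/-! ### boxes -/

lemma box_convex {N : ℕ} (u : Fin N → ℝ) : Convex ℝ (box u) := by
  intro x hx y hy a b ha hb hab l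
  have h1 := hx l
  have h2 := hy l
  simp only [PiLp.add_apply, PiLp.smul_apply, smul_eq_mul]
  constructor
  · have := mul_nonneg ha h1.1
    have := mul_nonneg hb h2.1
    linarith
  · have e1 := mul_le_mul_of_nonneg_left h1.2 ha
    have e2 := mul_le_mul_of_nonneg_left h2.2 hb
    have : a * u l + b * u l = u l := by rw [← add_mul, hab, one_mul]
    linarith

lemma box_eq {N : ℕ} (u : Fin N → ℝ) :
    box u = (EuclideanSpace.equiv (Fin N) ℝ) ⁻¹' (Set.Icc 0 u) := by
  ext x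
  simp only [box, Set.mem_ofPred_eq, Set.mem_preimage, Set.mem_Icc, Pi.le_def, Pi.zero_apply]
  constructor
  · intro h
    exact ⟨fun i => (h i).1, fun i => (h i).2⟩
  · intro h l
    exact ⟨h.1 l, h.2 l⟩

lemma box_compact {N : ℕ} (u : Fin N → ℝ) : IsCompact (box u) := by
  rw [box_eq]
  exact (EuclideanSpace.equiv (Fin N) ℝ).toHomeomorph.isClosedEmbedding.isCompact_preimage
    isCompact_Icc

lemma box_interior {N : ℕ} (u : Fin N → ℝ) (hu : ∀ l, 0 < u l) :
    (interior (box u)).Nonempty := by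
  rw [box_eq]
  have hopen : IsOpen ((EuclideanSpace.equiv (Fin N) ℝ) ⁻¹' (Set.pi Set.univ
      fun l => Set.Ioo (0 : ℝ) (u l))) :=
    (isOpen_set_pi Set.finite_univ fun i _ => isOpen_Ioo).preimage
      (EuclideanSpace.equiv (Fin N) ℝ).continuous
  have hsub : (EuclideanSpace.equiv (Fin N) ℝ) ⁻¹' (Set.pi Set.univ
      fun l => Set.Ioo (0 : ℝ) (u l)) ⊆ (EuclideanSpace.equiv (Fin N) ℝ) ⁻¹' (Set.Icc 0 u) := by
    intro x hx
    simp only [Set.mem_preimage, Set.mem_pi, Set.mem_univ, true_imp_iff, Set.mem_Ioo] at hx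
    simp only [Set.mem_preimage, Set.mem_Icc, Pi.le_def, Pi.zero_apply]
    exact ⟨fun i => (hx i).1.le, fun i => (hx i).2.le⟩
  refine ⟨(EuclideanSpace.equiv (Fin N) ℝ).symm fun l => u l / 2, ?_⟩
  refine interior_maximal hsub hopen ?_
  simp only [Set.mem_preimage, ContinuousLinearEquiv.apply_symm_apply, Set.mem_pi, Set.mem_univ,
    true_imp_iff, Set.mem_Ioo]
  intro i
  have := hu i
  constructor <;> linarith

lemma box_body {N : ℕ} (u : Fin N → ℝ) (hu : ∀ l, 0 < u l) : IsBody (box u) :=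
  ⟨box_compact u, box_convex u, box_interior u hu⟩

lemma box_avg {N : ℕ} (u v : Fin N → ℝ) {t : ℝ} (h0 : 0 ≤ t) (h1 : t ≤ 1) :
    t • box v + (1 - t) • box u ⊆ box (fun l => t * v l + (1 - t) * u l) := by
  rintro _ ⟨_, ⟨x, hx, rfl⟩, _, ⟨y, hy, rfl⟩, rfl⟩ l
  have h1 := hx l
  have h2 := hy l
  have h3 : 0 ≤ 1 - t := by linarith
  simp only [PiLp.add_apply, PiLp.smul_apply, smul_eq_mul]
  constructor
  · have := mul_nonneg h0 h1.1
    have := mul_nonneg h3 h2.1
    linarith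
  · have := mul_le_mul_of_nonneg_left h1.2 h0
    have := mul_le_mul_of_nonneg_left h2.2 h3
    linarith

/-! ### energies -/

/-- The minimal energy with exponent `-s`. -/
noncomputable def en {N : ℕ} (s : ℝ) (K : Set (EuclideanSpace ℝ (Fin N))) : ENNReal :=
  ⨅ (μ : Measure (EuclideanSpace ℝ (Fin N))) (_ : IsProbabilityMeasure μ) (_ : μ Kᶜ = 0),
    ∫⁻ x, ∫⁻ y, (ENNReal.ofReal ‖x - y‖) ^ (-s) ∂μ ∂μ

lemma cap_eq {N : ℕ} (s : ℝ) (K : Set (EuclideanSpace ℝ (Fin N))) :
    rieszCap N (N - s) K = (en s K)⁻¹ := by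
  unfold rieszCap en
  have : ((N : ℝ) - s - N) = -s := by ring
  rw [this]

lemma en_anti {N : ℕ} (s : ℝ) {A B : Set (EuclideanSpace ℝ (Fin N))} (h : A ⊆ B) :
    en s B ≤ en s A := by
  unfold en
  refine le_iInf fun μ => le_iInf fun hμ => le_iInf fun hA => ?_
  refine iInf_le_of_le μ (iInf_le_of_le hμ (iInf_le_of_le ?_ le_rfl))
  exact measure_mono_null (Set.compl_subset_compl.mpr h) hA

lemma half_int : ∫⁻ u in Set.Ioc (0:ℝ) 1, ENNReal.ofReal (u ^ (-(1/2:ℝ))) = 2 := by
  rw [← ofReal_integral_eq_lintegral_ofReal]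
  · rw [← intervalIntegral.integral_of_le zero_le_one, integral_rpow (Or.inl (by norm_num))]
    norm_num
  · exact (intervalIntegral.intervalIntegrable_rpow' (by norm_num)).1
  · filter_upwards [ae_restrict_mem measurableSet_Ioc] with u hu using Real.rpow_nonneg hu.1.le _

lemma half_int' : ∫⁻ u in Set.Icc (0:ℝ) 1, ‖u‖ₑ ^ (-(1/2:ℝ)) = 2 := by
  rw [← half_int, ← Measure.restrict_congr_set (Ioc_ae_eq_Icc (μ := volume) (a := (0:ℝ)) (b := 1))]
  refine setLIntegral_congr_fun measurableSet_Ioc ?_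
  intro u hu
  simp only
  rw [← ofReal_norm, Real.norm_of_nonneg hu.1.le, ENNReal.ofReal_rpow_of_pos hu.1]

lemma half_int_neg : ∫⁻ u in Set.Icc (-1:ℝ) 0, ‖u‖ₑ ^ (-(1/2:ℝ)) = 2 := by
  rw [← half_int', ← lintegral_indicator measurableSet_Icc, ← lintegral_indicator measurableSet_Icc,
    ← lintegral_neg_eq_self]
  refine lintegral_congr fun u => ?_
  by_cases h : u ∈ Set.Icc (0:ℝ) 1
  · rw [Set.indicator_of_mem h, Set.indicator_of_mem, enorm_neg]
    exact ⟨by linarith [h.2], by linarith [h.1]⟩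
  · rw [Set.indicator_of_notMem h, Set.indicator_of_notMem]
    intro h'
    exact h ⟨by linarith [h'.2], by linarith [h'.1]⟩

lemma full_int : ∫⁻ u in Set.Icc (-1:ℝ) 1, ‖u‖ₑ ^ (-(1/2:ℝ)) ≤ 4 := by
  have : Set.Icc (-1:ℝ) 1 = Set.Icc (-1:ℝ) 0 ∪ Set.Icc 0 1 := by
    rw [Set.Icc_union_Icc_eq_Icc] <;> norm_num
  rw [this]
  refine (lintegral_union_le _ _ _).trans ?_
  rw [half_int', half_int_neg]
  norm_num

lemma shift_int (t : ℝ) (ht : t ∈ Set.Icc (0:ℝ) 1) :
    ∫⁻ s in Set.Icc (0:ℝ) 1, (edist t s) ^ (-(1/2:ℝ)) ≤ 4 := by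
  refine le_trans ?_ full_int
  rw [← lintegral_indicator measurableSet_Icc, ← lintegral_indicator measurableSet_Icc,
    ← lintegral_sub_right_eq_self
      ((Set.Icc (-1 : ℝ) 1).indicator (fun u : ℝ => ‖u‖ₑ ^ (-(1/2:ℝ)))) t]
  refine lintegral_mono fun s => ?_
  by_cases h : s ∈ Set.Icc (0:ℝ) 1
  · rw [Set.indicator_of_mem h, Set.indicator_of_mem, edist_comm, edist_eq_enorm_sub]
    exact ⟨by linarith [h.1, ht.2], by linarith [h.2, ht.1]⟩
  · rw [Set.indicator_of_notMem h]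
    exact zero_le

/-- for `x ≤ 1` in `ℝ≥0∞` negative powers grow with the exponent -/
lemma rpow_mono_exp {x : ENNReal} (hx : x ≤ 1) {r r' : ℝ} (h : r ≤ r') : x ^ (-r) ≤ x ^ (-r') := by
  rw [ENNReal.rpow_neg, ENNReal.rpow_neg]
  exact ENNReal.inv_le_inv.mpr (ENNReal.rpow_le_rpow_of_exponent_ge hx h)

lemma rpow_anti {x y : ENNReal} (h : x ≤ y) {r : ℝ} (hr : 0 ≤ r) : y ^ (-r) ≤ x ^ (-r) := by
  rw [ENNReal.rpow_neg, ENNReal.rpow_neg]
  exact ENNReal.inv_le_inv.mpr (ENNReal.rpow_le_rpow h hr)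

lemma shift_int' (t : ℝ) (ht : t ∈ Set.Icc (0:ℝ) 1) {r : ℝ} (hr : r ≤ 1 / 2) :
    ∫⁻ s in Set.Icc (0:ℝ) 1, (edist t s) ^ (-r) ≤ 4 := by
  refine le_trans ?_ (shift_int t ht)
  refine setLIntegral_mono' measurableSet_Icc fun s hs => ?_
  refine rpow_mono_exp ?_ hr
  rw [edist_dist, Real.dist_eq]
  rw [show (1 : ENNReal) = ENNReal.ofReal 1 by simp]
  refine ENNReal.ofReal_le_ofReal ?_
  rw [abs_le]
  constructor <;> linarith [ht.1, ht.2, hs.1, hs.2]

/-- the coordinate laws: uniform on `[0,1]` on `B`, zero outside -/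
noncomputable def law {N : ℕ} (B : Finset (Fin N)) (i : Fin N) : Measure ℝ :=
  if i ∈ B then volume.restrict (Set.Icc 0 1) else Measure.dirac 0

instance {N : ℕ} (B : Finset (Fin N)) (i : Fin N) : IsProbabilityMeasure (law B i) := by
  unfold law
  split_ifs
  · exact ⟨by simp⟩
  · infer_instance

lemma law_ae {N : ℕ} (B : Finset (Fin N)) (i : Fin N) :
    ∀ᵐ t ∂(law B i), 0 ≤ t ∧ t ≤ if i ∈ B then 1 else 0 := by
  unfold law
  split_ifs
  · filter_upwards [ae_restrict_mem measurableSet_Icc] with t ht using ⟨ht.1, ht.2⟩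
  · rw [ae_dirac_iff]
    · simp
    · exact measurableSet_Icc

lemma pi_ae {N : ℕ} (B : Finset (Fin N)) :
    ∀ᵐ x ∂(Measure.pi (law B)), ∀ i, 0 ≤ x i ∧ x i ≤ if i ∈ B then 1 else 0 := by
  rw [ae_all_iff]
  intro i
  have h := (measurePreserving_eval (law B) i).quasiMeasurePreserving.ae (law_ae B i)
  exact h

lemma inner_le {N : ℕ} (B : Finset (Fin N)) {r : ℝ} (hr : r ≤ 1 / 2) (x : Fin N → ℝ)
    (hx : ∀ i ∈ B, x i ∈ Set.Icc (0 : ℝ) 1) :
    ∫⁻ y, ∏ i ∈ B, (edist (x i) (y i)) ^ (-r) ∂(Measure.pi (law B)) ≤ 4 ^ B.card := by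
  have hm : ∀ i, Measurable fun t : ℝ => (edist (x i) t) ^ (-r) := fun i => by fun_prop
  have hind : iIndepFun (fun i (y : Fin N → ℝ) => (edist (x i) (y i)) ^ (-r)) (Measure.pi (law B)) :=
    iIndepFun_pi (X := fun i t => (edist (x i) t) ^ (-r)) fun i => (hm i).aemeasurable
  rw [lintegral_prod_eq_prod_lintegral_of_indepFun B _ hind
    (fun i => (hm i).comp (measurable_pi_apply i))]
  rw [← Finset.prod_const]
  refine Finset.prod_le_prod' fun i hi => ?_
  have h1 := (measurePreserving_eval (law B) i).lintegral_comp (hm i)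
  rw [h1]
  unfold law
  rw [if_pos hi]
  exact shift_int' _ (hx i hi) hr

lemma en_le {N : ℕ} (B : Finset (Fin N)) (hB : B.Nonempty) {s : ℝ} (hs : 0 < s)
    (hsB : s ≤ B.card / 2) (u : Fin N → ℝ) (hu : ∀ l, 0 ≤ u l) (huB : ∀ l ∈ B, 1 ≤ u l) :
    en s (box u) ≤ 4 ^ B.card := by
  set ν : Measure (Fin N → ℝ) := Measure.pi (law B) with hν
  set e : (Fin N → ℝ) ≃ᵐ EuclideanSpace ℝ (Fin N) := MeasurableEquiv.toLp 2 (Fin N → ℝ) with he
  have hcard : (0 : ℝ) < B.card := by exact_mod_cast hB.card_pos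
  have hprob : IsProbabilityMeasure (ν.map e) :=
    Measure.isProbabilityMeasure_map e.measurable.aemeasurable
  unfold en
  refine iInf_le_of_le (ν.map e) (iInf_le_of_le hprob (iInf_le_of_le ?_ ?_))
  · rw [Measure.map_apply e.measurable (box_compact u).isClosed.measurableSet.compl]
    have h := pi_ae B
    rw [ae_iff] at h
    refine measure_mono_null ?_ h
    intro x hx hx'
    apply hx
    intro i
    have h1 := hx' i
    refine ⟨h1.1, h1.2.trans ?_⟩
    split_ifs with hi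
    · exact huB i hi
    · exact hu i
  · rw [lintegral_map_equiv]
    have h1 : ∀ᵐ x ∂ν, ∫⁻ y, (ENNReal.ofReal ‖e x - y‖) ^ (-s) ∂(ν.map e) ≤ 4 ^ B.card := by
      filter_upwards [pi_ae B] with x hx
      rw [lintegral_map_equiv]
      refine le_trans ?_ (inner_le B (r := s / B.card) ?_ x ?_)
      · refine lintegral_mono fun y => ?_
        have h2 : (ENNReal.ofReal ‖e x - e y‖) ^ (-s) =
            ∏ i ∈ B, (ENNReal.ofReal ‖e x - e y‖) ^ (-(s / B.card)) := by
          rw [Finset.prod_const, ← ENNReal.rpow_natCast, ← ENNReal.rpow_mul]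
          congr 1
          field_simp
        rw [h2]
        refine Finset.prod_le_prod' fun i hi => rpow_anti ?_ (by positivity)
        rw [edist_dist, Real.dist_eq]
        refine ENNReal.ofReal_le_ofReal ?_
        have h3 := PiLp.norm_apply_le (e x - e y) i
        rw [Real.norm_eq_abs] at h3
        exact h3
      · rw [div_le_iff₀ hcard]; linarith
      · intro i hi
        have h3 := hx i
        rw [if_pos hi] at h3
        exact h3
    calc ∫⁻ x, ∫⁻ y, (ENNReal.ofReal ‖e x - y‖) ^ (-s) ∂(ν.map e) ∂ν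
        ≤ ∫⁻ _x, 4 ^ B.card ∂ν := lintegral_mono_ae h1
      _ = 4 ^ B.card := by simp

lemma le_en {N : ℕ} {s : ℝ} (hs : 0 < s) (K : Set (EuclideanSpace ℝ (Fin N))) (R : ENNReal)
    (hK : ∀ x ∈ K, ∀ y ∈ K, ENNReal.ofReal ‖x - y‖ ≤ R) : R ^ (-s) ≤ en s K := by
  unfold en
  refine le_iInf fun μ => le_iInf fun hμ => le_iInf fun hA => ?_
  have hae : ∀ᵐ x ∂μ, x ∈ K := by
    rw [ae_iff]
    exact hA
  calc R ^ (-s) = ∫⁻ _x, ∫⁻ _y, R ^ (-s) ∂μ ∂μ := by simp
    _ ≤ ∫⁻ x, ∫⁻ y, (ENNReal.ofReal ‖x - y‖) ^ (-s) ∂μ ∂μ := by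
        refine lintegral_mono_ae ?_
        filter_upwards [hae] with x hx
        refine lintegral_mono_ae ?_
        filter_upwards [hae] with y hy
        exact rpow_anti (hK x hx y hy) hs.le

/-! ### the averaged boxes -/

/-- The side lengths of the averaged boxes; `b l` is the number of the block of the coordinate
`l`. -/
noncomputable def sides {N : ℕ} (b : Fin N → ℕ) (t ε : ℝ) : ℕ → ℕ → Fin N → ℝ
  | 0, j, l => ε + if b l = j then 1 else 0
  | k + 1, j, l => t * sides b t ε k (2 * j + 1) l + (1 - t) * sides b t ε k (2 * j) l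

lemma sides_pos {N : ℕ} (b : Fin N → ℕ) {t ε : ℝ} (ht : 0 < t) (ht1 : t < 1) (hε : 0 < ε) (k : ℕ) :
    ∀ j l, 0 < sides b t ε k j l := by
  induction k with
  | zero =>
    intro j l
    unfold sides
    split_ifs <;> linarith
  | succ k ih =>
    intro j l
    unfold sides
    have h1 := mul_pos ht (ih (2 * j + 1) l)
    have h2 := mul_pos (by linarith : 0 < 1 - t) (ih (2 * j) l)
    linarith

lemma sides_le {N : ℕ} (b : Fin N → ℕ) {t ε q : ℝ} (ht : 0 < t) (ht1 : t < 1)
    (hq : t ≤ q) (hq' : 1 - t ≤ q) (k : ℕ) : ∀ j l, sides b t ε k j l ≤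
    ε + if j * 2 ^ k ≤ b l ∧ b l < (j + 1) * 2 ^ k then q ^ k else 0 := by
  have hq0 : 0 < q := ht.trans_le hq
  induction k with
  | zero =>
    intro j l
    unfold sides
    by_cases h : b l = j
    · simp [h]
    · rw [if_neg h]
      split_ifs <;> norm_num
  | succ k ih =>
    intro j l
    unfold sides
    have h1 := mul_le_mul_of_nonneg_left (ih (2 * j + 1) l) ht.le
    have h2 := mul_le_mul_of_nonneg_left (ih (2 * j) l) (by linarith : 0 ≤ 1 - t)
    have hqk : 0 < q ^ k := by positivity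
    by_cases hA : (2 * j + 1) * 2 ^ k ≤ b l ∧ b l < (2 * j + 1 + 1) * 2 ^ k
    · have hB : ¬ (2 * j * 2 ^ k ≤ b l ∧ b l < (2 * j + 1) * 2 ^ k) := by
        intro hB; exact absurd hA.1 (not_le.mpr hB.2)
      have hC : j * 2 ^ (k + 1) ≤ b l ∧ b l < (j + 1) * 2 ^ (k + 1) := by
        rw [pow_succ]
        constructor
        · nlinarith [hA.1]
        · nlinarith [hA.2]
      rw [if_pos hA] at h1
      rw [if_neg hB] at h2
      rw [if_pos hC, pow_succ]
      nlinarith
    · by_cases hB : 2 * j * 2 ^ k ≤ b l ∧ b l < (2 * j + 1) * 2 ^ k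
      · have hC : j * 2 ^ (k + 1) ≤ b l ∧ b l < (j + 1) * 2 ^ (k + 1) := by
          rw [pow_succ]
          constructor
          · nlinarith [hB.1]
          · nlinarith [hB.2]
        rw [if_neg hA] at h1
        rw [if_pos hB] at h2
        rw [if_pos hC, pow_succ]
        nlinarith
      · rw [if_neg hA] at h1
        rw [if_neg hB] at h2
        have h3 : (0 : ℝ) ≤ if j * 2 ^ (k + 1) ≤ b l ∧ b l < (j + 1) * 2 ^ (k + 1) then
            q ^ (k + 1) else 0 := by
          split_ifs <;> positivity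
        nlinarith

lemma sides_sum {N : ℕ} (b : Fin N → ℕ) {t ε : ℝ} (ht : 0 < t) (ht1 : t < 1) (m : ℕ)
    (hb : ∀ j, (Finset.univ.filter fun l => b l = j).card ≤ m) (k : ℕ) :
    ∀ j, ∑ l, sides b t ε k j l ≤ m + N * ε := by
  induction k with
  | zero =>
    intro j
    simp only [sides, Finset.sum_add_distrib, Finset.sum_const, Finset.card_univ, Fintype.card_fin,
      nsmul_eq_mul, Finset.sum_ite, mul_one, mul_zero, add_zero]
    have h := hb j
    have h' : ((Finset.univ.filter fun l => b l = j).card : ℝ) ≤ m := by exact_mod_cast h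
    linarith
  | succ k ih =>
    intro j
    simp only [sides, Finset.sum_add_distrib, ← Finset.mul_sum]
    have h1 := mul_le_mul_of_nonneg_left (ih (2 * j + 1)) ht.le
    have h2 := mul_le_mul_of_nonneg_left (ih (2 * j)) (by linarith : 0 ≤ 1 - t)
    nlinarith

lemma box_diam {N : ℕ} (u : Fin N → ℝ) (a c : ℝ) (ha : 0 ≤ a) (hu0 : ∀ l, 0 ≤ u l)
    (hu : ∀ l, u l ≤ a) (hc : ∑ l, u l ≤ c) :
    ∀ x ∈ box u, ∀ y ∈ box u, ENNReal.ofReal ‖x - y‖ ≤ ENNReal.ofReal (Real.sqrt (a * c)) := by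
  intro x hx y hy
  refine ENNReal.ofReal_le_ofReal ?_
  rw [EuclideanSpace.norm_eq]
  refine Real.sqrt_le_sqrt ?_
  calc ∑ i, ‖(x - y) i‖ ^ 2 ≤ ∑ i, a * u i := by
        refine Finset.sum_le_sum fun i _ => ?_
        have h1 := hx i
        have h2 := hy i
        have h3 := hu i
        have h4 := hu0 i
        have h5 : ‖(x - y) i‖ ≤ u i := by
          rw [PiLp.sub_apply, Real.norm_eq_abs, abs_le]
          constructor <;> linarith
        have h6 : 0 ≤ ‖(x - y) i‖ := norm_nonneg _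
        nlinarith
    _ = a * ∑ i, u i := by rw [Finset.mul_sum]
    _ ≤ a * c := mul_le_mul_of_nonneg_left hc ha

lemma cap_ne_top {N : ℕ} {s : ℝ} (hs : 0 < s) (u : Fin N → ℝ) (hu : ∀ l, 0 < u l) :
    rieszCap N (N - s) (box u) ≠ ⊤ := by
  rw [cap_eq, ENNReal.inv_ne_top]
  have ha : ∀ l, u l ≤ ∑ i, u i := fun l =>
    Finset.single_le_sum (fun i _ => (hu i).le) (Finset.mem_univ l)
  have h := le_en hs _ _ (box_diam u (∑ i, u i) (∑ i, u i)
    (Finset.sum_nonneg fun i _ => (hu i).le) (fun l => (hu l).le) ha le_rfl)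
  refine (lt_of_lt_of_le ?_ h).ne'
  rw [ENNReal.rpow_neg, ENNReal.inv_pos]
  exact ENNReal.rpow_ne_top_of_nonneg hs.le ENNReal.ofReal_ne_top

lemma block_sub {N m : ℕ} (hm : 0 < m) (j : ℕ) :
    (Finset.univ.filter fun l : Fin N => l.val / m = j).map Fin.valEmbedding ⊆
      Finset.Ico (j * m) ((j + 1) * m) := by
  intro x hx
  simp only [Finset.mem_map, Finset.mem_filter, Finset.mem_univ, true_and,
    Fin.valEmbedding_apply] at hx
  obtain ⟨l, hl, rfl⟩ := hx
  rw [Finset.mem_Ico]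
  rw [Nat.div_eq_iff hm] at hl
  constructor
  · exact hl.1
  · have := hl.2
    have h : (j + 1) * m = j * m + m := by ring
    omega

lemma block_card_le {N m : ℕ} (hm : 0 < m) (j : ℕ) :
    (Finset.univ.filter fun l : Fin N => l.val / m = j).card ≤ m := by
  have h := Finset.card_le_card (block_sub (N := N) hm j)
  rw [Finset.card_map, Nat.card_Ico] at h
  have h2 : (j + 1) * m = j * m + m := by ring
  omega

lemma block_card {N m : ℕ} (hm : 0 < m) (j : ℕ) (hj : (j + 1) * m ≤ N) :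
    (Finset.univ.filter fun l : Fin N => l.val / m = j).card = m := by
  refine le_antisymm (block_card_le hm j) ?_
  have h : Finset.Ico (j * m) ((j + 1) * m) ⊆
      (Finset.univ.filter fun l : Fin N => l.val / m = j).map Fin.valEmbedding := by
    intro x hx
    rw [Finset.mem_Ico] at hx
    simp only [Finset.mem_map, Finset.mem_filter, Finset.mem_univ, true_and,
      Fin.valEmbedding_apply]
    refine ⟨⟨x, hx.2.trans_le hj⟩, ?_, rfl⟩
    rw [Nat.div_eq_iff hm]
    have h2 : (j + 1) * m = j * m + m := by ring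
    constructor
    · exact hx.1
    · have := hx.2
      change x ≤ j * m + m - 1
      omega
  have h' := Finset.card_le_card h
  rw [Finset.card_map, Nat.card_Ico] at h'
  have h2 : (j + 1) * m = j * m + m := by ring
  omega

/-- **The Brunn-Minkowski inequality for Riesz capacities fails in every codimension**: for every
`s > 0` and every weight `0 < t < 1` it fails for `α = N - s` in all large dimensions `N`, for
two boxes. -/
theorem result : ∀ s t : ℝ, 0 < s → 0 < t → t < 1 → ∃ N₀ : ℕ, 2 ≤ N₀ ∧ s < N₀ ∧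
    ∀ N : ℕ, N₀ ≤ N → ∃ u v : Fin N → ℝ, (∀ i, 0 < u i) ∧ (∀ i, 0 < v i) ∧
      IsBody (box u) ∧ IsBody (box v) ∧
      rieszCap N (N - s) (box u) ≠ ⊤ ∧ rieszCap N (N - s) (box v) ≠ ⊤ ∧
      rieszCap N (N - s) (t • box v + (1 - t) • box u) ^ (1 / s) <
        ENNReal.ofReal t * rieszCap N (N - s) (box v) ^ (1 / s) +
          ENNReal.ofReal (1 - t) * rieszCap N (N - s) (box u) ^ (1 / s) := by
  intro s t hs ht ht1
  obtain ⟨m, hm⟩ : ∃ m : ℕ, m = ⌈2 * s⌉₊ := ⟨_, rfl⟩
  have hm2 : 2 * s ≤ m := by rw [hm]; exact Nat.le_ceil _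
  have hm0 : 0 < m := by
    rw [hm]; exact Nat.ceil_pos.mpr (by linarith)
  obtain ⟨q, hq⟩ : ∃ q : ℝ, q = max t (1 - t) := ⟨_, rfl⟩
  have hqt : t ≤ q := hq ▸ le_max_left _ _
  have hqt' : 1 - t ≤ q := hq ▸ le_max_right _ _
  have hq0 : 0 < q := ht.trans_le hqt
  have hq1 : q < 1 := by rw [hq]; exact max_lt ht1 (by linarith)
  obtain ⟨c, hc⟩ : ∃ c : ENNReal, c = ((4 : ENNReal) ^ m)⁻¹ ^ (1 / s) := ⟨_, rfl⟩
  have hc0 : 0 < c := by
    rw [hc]
    refine ENNReal.rpow_pos ?_ ?_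
    · exact ENNReal.inv_pos.mpr (ENNReal.pow_ne_top (by norm_num))
    · exact ENNReal.inv_ne_top.mpr (by positivity)
  -- the number of the steps
  obtain ⟨k, hk⟩ : ∃ k : ℕ, ENNReal.ofReal (Real.sqrt (2 * q ^ k * (m + 1))) < c := by
    have h1 : Filter.Tendsto (fun k : ℕ => ENNReal.ofReal (Real.sqrt (2 * q ^ k * (m + 1))))
        Filter.atTop (nhds 0) := by
      have h2 := ((tendsto_pow_atTop_nhds_zero_of_lt_one hq0.le hq1).const_mul 2).mul_const ((m : ℝ) + 1)
      have h3 := ENNReal.tendsto_ofReal h2.sqrt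
      simpa using h3
    exact (h1.eventually (gt_mem_nhds hc0)).exists
  refine ⟨m * 2 ^ k + 2, by omega, ?_, ?_⟩
  · push_cast
    have h1 : (1 : ℝ) ≤ 2 ^ k := one_le_pow₀ (by norm_num)
    have h2 : (0 : ℝ) < m := by exact_mod_cast hm0
    nlinarith
  intro N hN
  by_contra hcon
  push Not at hcon
  have hN0 : (0 : ℝ) < N := by
    have : 0 < N := by omega
    exact_mod_cast this
  have hqk : 0 < q ^ k := by positivity
  obtain ⟨ε, hε⟩ : ∃ ε : ℝ, ε = q ^ k / N := ⟨_, rfl⟩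
  have hε0 : 0 < ε := by rw [hε]; positivity
  obtain ⟨b, hb⟩ : ∃ b : Fin N → ℕ, b = fun l => l.val / m := ⟨_, rfl⟩
  have key : ∀ k' j, (j + 1) * 2 ^ k' ≤ 2 ^ k →
      c ≤ (en s (box (sides b t ε k' j)))⁻¹ ^ (1 / s) := by
    intro k'
    induction k' with
    | zero =>
      intro j hj
      have hjN : (j + 1) * m ≤ N := by
        have h1 : j + 1 ≤ 2 ^ k := by simpa using hj
        have h2 := Nat.mul_le_mul_right m h1
        have h3 : 2 ^ k * m = m * 2 ^ k := mul_comm _ _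
        omega
      have hcard := block_card (N := N) hm0 j hjN
      have h1 := en_le (Finset.univ.filter fun l : Fin N => l.val / m = j)
        (Finset.card_pos.mp (by rw [hcard]; exact hm0)) hs (by rw [hcard]; linarith)
        (sides b t ε 0 j) (fun l => (sides_pos b ht ht1 hε0 0 j l).le) (by
          intro l hl
          rw [Finset.mem_filter] at hl
          unfold sides
          rw [hb, if_pos hl.2]
          linarith)
      rw [hcard] at h1
      rw [hc]
      exact ENNReal.rpow_le_rpow (ENNReal.inv_le_inv.mpr h1) (by positivity)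
    | succ k' ih =>
      intro j hj
      have h1 := ih (2 * j + 1) (by rw [pow_succ] at hj; nlinarith)
      have h2 := ih (2 * j) (by rw [pow_succ] at hj; nlinarith [pow_pos (zero_lt_two (α := ℕ)) k'])
      have h3 := hcon (sides b t ε k' (2 * j)) (sides b t ε k' (2 * j + 1))
        (sides_pos b ht ht1 hε0 k' _) (sides_pos b ht ht1 hε0 k' _)
        (box_body _ (sides_pos b ht ht1 hε0 k' _)) (box_body _ (sides_pos b ht ht1 hε0 k' _))
        (cap_ne_top hs _ (sides_pos b ht ht1 hε0 k' _))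
        (cap_ne_top hs _ (sides_pos b ht ht1 hε0 k' _))
      rw [cap_eq, cap_eq, cap_eq] at h3
      have h4 := box_avg (sides b t ε k' (2 * j)) (sides b t ε k' (2 * j + 1)) ht.le ht1.le
      have h5 : (en s (t • box (sides b t ε k' (2 * j + 1)) +
          (1 - t) • box (sides b t ε k' (2 * j))))⁻¹ ≤
          (en s (box (sides b t ε (k' + 1) j)))⁻¹ := ENNReal.inv_le_inv.mpr (en_anti s h4)
      refine le_trans ?_ (h3.trans (ENNReal.rpow_le_rpow h5 (by positivity)))
      have h6 : c = ENNReal.ofReal t * c + ENNReal.ofReal (1 - t) * c := by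
        rw [← add_mul, ← ENNReal.ofReal_add ht.le (by linarith)]
        simp
      calc c = ENNReal.ofReal t * c + ENNReal.ofReal (1 - t) * c := h6
        _ ≤ _ := by gcongr
  have hfin := key k 0 (by simp)
  have hside : ∀ l, sides b t ε k 0 l ≤ 2 * q ^ k := by
    intro l
    refine (sides_le b ht ht1 hqt hqt' k 0 l).trans ?_
    have h1 : ε ≤ q ^ k := by
      rw [hε, div_le_iff₀ hN0]
      have : (1 : ℝ) ≤ N := by
        have : 1 ≤ N := by omega
        exact_mod_cast this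
      nlinarith
    split_ifs <;> linarith
  have hsum : ∑ l, sides b t ε k 0 l ≤ m + 1 := by
    refine (sides_sum b ht ht1 m (fun j => ?_) k 0).trans ?_
    · rw [hb]; exact block_card_le hm0 j
    · have h1 : N * ε = q ^ k := by rw [hε]; field_simp
      have h2 : q ^ k ≤ 1 := pow_le_one₀ hq0.le hq1.le
      linarith
  have hd := box_diam (sides b t ε k 0) (2 * q ^ k) (m + 1) (by positivity)
    (fun l => (sides_pos b ht ht1 hε0 k 0 l).le) hside hsum
  have hl := le_en hs _ _ hd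
  have hl2 : (en s (box (sides b t ε k 0)))⁻¹ ^ (1 / s) ≤
      ENNReal.ofReal (Real.sqrt (2 * q ^ k * (m + 1))) := by
    have h1 : (en s (box (sides b t ε k 0)))⁻¹ ≤
        (ENNReal.ofReal (Real.sqrt (2 * q ^ k * (m + 1)))) ^ s := by
      rw [ENNReal.inv_le_iff_inv_le, ← ENNReal.rpow_neg]
      exact hl
    refine (ENNReal.rpow_le_rpow h1 (by positivity)).trans ?_
    rw [← ENNReal.rpow_mul, mul_one_div_cancel hs.ne', ENNReal.rpow_one]
  exact absurd (hfin.trans hl2) (not_le.mpr hk)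

end Pool.Agent.Results.MP_4442a2_an.EveryCodimension
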